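import Mathlib
import Pool.Agent.KS6_47.Frk.Inf

/-!
# MP_e9db21_co, Q1: every fork-free graph, finite or infinite, is perfectly (weight) divisible

Consequences of the finite theorem by compactness, and the resulting binding function: a fork-free
graph, finite or infinite, with clique number at most `n` has chromatic number at most
`n (n + 1) / 2`.
-/

set_option autoImplicit false

namespace Pool.Agent.Results.MP_e9db21_co.InfiniteForkFree

open Pool.Agent.KS6_47.Frk

/-- `G` has no induced subgraph isomorphic to the fork with the edges `ab, bc, cd, ce`. -/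
def IsForkFree {V : Type} (G : SimpleGraph V) : Prop :=
  ¬ ∃ a b c d e : V, a ≠ c ∧ a ≠ d ∧ a ≠ e ∧ b ≠ d ∧ b ≠ e ∧ d ≠ e ∧
    G.Adj a b ∧ G.Adj b c ∧ G.Adj c d ∧ G.Adj c e ∧
    ¬ G.Adj a c ∧ ¬ G.Adj a d ∧ ¬ G.Adj a e ∧ ¬ G.Adj b d ∧ ¬ G.Adj b e ∧ ¬ G.Adj d e

/-- The subgraph of `G` induced by `A` is perfect: all its induced subgraphs (finite or infinite)
have chromatic number equal to the clique number. -/
def PerfectOn {V : Type} (G : SimpleGraph V) (A : Set V) : Prop :=
  ∀ T : Set V, T ⊆ A → (G.induce T).chromaticNumber = ((G.induce T).cliqueNum : ℕ∞)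

/-- The cliques inside `S` have bounded weight (always true if `S` is finite). -/
def BoundedCliques {V : Type} (G : SimpleGraph V) (w : V → ℕ) (S : Set V) : Prop :=
  ∃ W : ℕ, ∀ K : Finset V, (↑K : Set V) ⊆ S → G.IsClique (↑K : Set V) → ∑ v ∈ K, w v ≤ W

/-- `G` is perfectly weight divisible: for all positive integer weights and each nonempty vertex set
`S`, finite or infinite, whose cliques have bounded weight there is a partition of `S` into `A` and
`B` such that `A` induces a perfect graph and each clique inside `B` weighs less than a fixed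
clique inside `S`. With all weights equal to one: `A` induces a perfect graph and `B` has a smaller
clique number than `S`. -/
def PerfectlyWeightDivisible {V : Type} (G : SimpleGraph V) : Prop :=
  ∀ w : V → ℕ, (∀ v, 0 < w v) → ∀ S : Set V, S.Nonempty → BoundedCliques G w S →
    ∃ A B : Set V, A ∪ B = S ∧ Disjoint A B ∧ PerfectOn G A ∧
      ∃ K : Finset V, (↑K : Set V) ⊆ S ∧ G.IsClique (↑K : Set V) ∧
        ∀ L : Finset V, (↑L : Set V) ⊆ B → G.IsClique (↑L : Set V) →
          ∑ v ∈ L, w v < ∑ v ∈ K, w v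

theorem forkFree {V : Type} {G : SimpleGraph V} (hG : IsForkFree G) : ForkFree G := by
  intro a b c d e h1 h2 h3 h4 h5 h6 h7 h8 h9 h10 h11
  refine hG ⟨a, b, c, d, e, ?_, ?_, ?_, ?_, ?_, h11, h1, h2, h3, h4, h5, h6, h7, h8, h9, h10⟩
  · rintro rfl; exact h6 h3
  · rintro rfl; exact h5 h3.symm
  · rintro rfl; exact h5 h4.symm
  · rintro rfl; exact h6 h1
  · rintro rfl; exact h7 h1

theorem divisible (V : Type) (G : SimpleGraph V) (hG : IsForkFree G) :
    PerfectlyWeightDivisible G := by
  classical
  intro w hw S hS hB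
  obtain ⟨W, hW⟩ := hB
  -- the maximal weight of a clique is attained
  obtain ⟨M, ⟨K, hK1, hK2, hK3⟩, hM⟩ : ∃ m, IsGreatest {m : ℕ | ∃ K : Finset V,
      (↑K : Set V) ⊆ S ∧ G.IsClique (↑K : Set V) ∧ ∑ v ∈ K, w v = m} m := by
    refine BddAbove.exists_isGreatest_of_nonempty ⟨W, ?_⟩ ⟨0, ∅, by simp, by simp, by simp⟩
    rintro m ⟨K, h1, h2, rfl⟩
    exact hW K h1 h2
  have hM' : ∀ L : Finset V, (↑L : Set V) ⊆ S → G.IsClique (↑L : Set V) →
      ∑ v ∈ L, w v ≤ M := fun L h1 h2 => hM ⟨L, h1, h2, rfl⟩
  have hM0 : 0 < M := by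
    obtain ⟨x, hx⟩ := hS
    have h1 := hM' {x} (by simpa using hx) (by simp)
    rw [Finset.sum_singleton] at h1
    exact lt_of_lt_of_le (hw x) h1
  obtain ⟨A, hAS, hA, hL⟩ := inf_part (forkFree hG) w hw S M hM0 hM'
  refine ⟨A, S \ A, Set.union_sdiff_cancel hAS, Set.disjoint_sdiff_right, ?_, K, hK1, hK2,
    fun L h1 h2 => by rw [hK3]; exact hL L h1 h2⟩
  intro T hT
  refine perfect_inf A hA M (fun L h1 h2 => ?_) T hT
  refine le_trans ?_ (hM' L (h1.trans hAS) h2)
  rw [Finset.card_eq_sum_ones]
  exact Finset.sum_le_sum (fun v _ => hw v)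

/-- **Main theorem.** (1) Every fork-free graph, finite or infinite, is perfectly weight divisible.
(2) For finite graphs no boundedness hypothesis is needed: all positive integer weights are
allowed. (3) Every fork-free graph, finite or infinite, all of whose cliques have at most `n`
vertices, is `n (n + 1) / 2`-colourable. -/
theorem result :
    (∀ (V : Type) (G : SimpleGraph V), IsForkFree G → PerfectlyWeightDivisible G) ∧
    (∀ (V : Type) (G : SimpleGraph V) (w : V → ℕ) (S : Set V), S.Finite →
      BoundedCliques G w S) ∧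
    (∀ (V : Type) (G : SimpleGraph V) (n : ℕ), IsForkFree G → G.CliqueFree (n + 1) →
      G.Colorable ((n + 1).choose 2)) := by
  classical
  refine ⟨divisible, fun V G w S hS => ⟨∑ v ∈ hS.toFinset, w v, fun K hK _ => ?_⟩,
    fun V G n hG hn => ?_⟩
  · refine Finset.sum_le_sum_of_subset ?_
    intro v hv
    exact hS.mem_toFinset.2 (hK hv)
  · have h := chi_bound (forkFree hG) n Set.univ (fun K _ hK => by
      by_contra hcon
      obtain ⟨K', hK'1, hK'2⟩ := Finset.exists_subset_card_eq (show n + 1 ≤ K.card by omega)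
      exact hn K' ⟨hK.subset (by exact_mod_cast hK'1), hK'2⟩)
    obtain ⟨c⟩ := h
    exact ⟨c.comp (SimpleGraph.induceUnivIso G).symm.toHom⟩

end Pool.Agent.Results.MP_e9db21_co.InfiniteForkFree
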